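import Pool.Agent.Helper13K9.BL.Aff

/-!
# Relations between logarithms of primes which are affine in some of the variables

Let `V` be a space of complex numbers of dimension at most `N` over the field `ℚ̄` of algebraic
numbers, for example `ℚ̄` itself.  We consider ALL relations

`t_0 (z) + t_1 (z) log y_1 + … + t_r (z) log y_r = 0`,   `t_1 (z), …, t_r (z) ≠ 0`,

where the `y_i` are distinct primes and the `t_i` are arbitrary polynomials in `z_1, …, z_s` of degree
at most `δ` in each variable with coefficients in `V` (at once; no bound for the heights and degrees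
of the coefficients).  Let `D = N (δ + 1) ^ s`.

* For arbitrary complex numbers `z_1, …, z_s` there is a set of at most `r D (D - 1)` primes which
  contains all members of all such `r`-tuples `y`.
* Let `z_j = log x_j`.  For every finite set `S` of primes at most `(r D (D - 1)) ^ r |S| ^ s` of the
  `(r + s)`-tuples `(y, x)` of elements of `S`, with distinct `y_i`, satisfy such a relation.

In other words: for all but `O (|S| ^ s)` of the `(r + s)`-tuples of primes from `S` the logarithms
satisfy no polynomial relation with coefficients in `V` and of bounded degree which has total degree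
one in the first `r` variables and in which the partial derivatives with respect to these variables do
not vanish.  For `1 ≤ r ≤ s` the exponent `s` is optimal because of the tuples with `y_i = x_i` for
`i ≤ r`: then `log y_1 = log x_1` if `r = 1`, and `∑_(i, j ≤ r) c_ij log y_i log x_j = 0` for all
antisymmetric matrices `c` if `r ≥ 2`.

The proof uses the hyperplane case of the linear subgroup theorem of Waldschmidt and Roy (starting
files `Pool.Agent.W254.HP`): the vectors of linear forms in logarithms orthogonal to a basis of the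
space spanned by all `V z^m` form a space of dimension at most `D (D - 1)`, so those which
involve at most `r` primes involve together at most `r D (D - 1)` primes.
-/

set_option autoImplicit false

namespace Pool.Agent.Results.MP_d171e3_nt.AffineInSomeVariables

open Module Pool.Agent.Helper13K9.BL

/-- The distinct numbers `y_1, …, y_r` satisfy over `z_1, …, z_s` a relation
`t_0 (z) + ∑ t_i (z) log y_i = 0` with polynomials `t_i` with coefficients in `V`, of degree at most `δ`
in each of the variables, and with `t_i (z) ≠ 0` for `i ≥ 1`. -/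
def Related {r s : ℕ} (V : Submodule (algebraicClosure ℚ ℂ) ℂ) (δ : ℕ) (y : Fin r → ℕ)
    (z : Fin s → ℂ) : Prop :=
  Function.Injective y ∧
  ∃ (t₀ : MvPolynomial (Fin s) ℂ) (t : Fin r → MvPolynomial (Fin s) ℂ),
    (∀ e, t₀.coeff e ∈ V) ∧ (∀ j, t₀.degreeOf j ≤ δ) ∧
    (∀ i e, (t i).coeff e ∈ V) ∧ (∀ i j, (t i).degreeOf j ≤ δ) ∧
    (∀ i, MvPolynomial.eval z (t i) ≠ 0) ∧
    MvPolynomial.eval z t₀ + ∑ i, MvPolynomial.eval z (t i) * ((Real.log (y i) : ℝ) : ℂ) = 0

/-- **Main result.** -/
theorem result (r s N δ : ℕ) (V : Submodule (algebraicClosure ℚ ℂ) ℂ)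
    (hV : FiniteDimensional (algebraicClosure ℚ ℂ) V)
    (hN : finrank (algebraicClosure ℚ ℂ) V ≤ N) :
    (∀ z : Fin s → ℂ, ∃ U : Finset ℕ,
      U.card ≤ r * ((N * (δ + 1) ^ s) * (N * (δ + 1) ^ s - 1)) ∧
      ∀ y : Fin r → ℕ, (∀ i, (y i).Prime) → Related V δ y z → ∀ i, y i ∈ U) ∧
    (∀ S : Finset ℕ, (∀ p ∈ S, p.Prime) →
      {p : (Fin r → ℕ) × (Fin s → ℕ) | (∀ i, p.1 i ∈ S) ∧ (∀ j, p.2 j ∈ S) ∧
        Related V δ p.1 (fun j => ((Real.log (p.2 j) : ℝ) : ℂ))}.ncard ≤
        (r * ((N * (δ + 1) ^ s) * (N * (δ + 1) ^ s - 1))) ^ r * S.card ^ s) := by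
  refine ⟨fun z => ?_, fun S hS => ?_⟩
  · obtain ⟨U, hUc, hU⟩ := rel_members (r := r) V hV hN δ z
    exact ⟨U, hUc, fun y hy h => hU y h.1 hy h.2⟩
  · exact rel_count V hV hN δ S hS

end Pool.Agent.Results.MP_d171e3_nt.AffineInSomeVariables
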