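import Pool.Agent.Helper13K9.BL.Dil

/-!
# Logarithms of primes in affine subspaces, and sums of dilates of the logarithms of primes

Let `V` be an arbitrary linear subspace of `ℂ ^ n` and `τ` an arbitrary vector.  We consider the
`n`-tuples `p` of primes for which `log p - τ` lies in `V`.  An index `i` is free for `p` if the
indicator vector of the set of all `j` with `p_j = p_i` lies in `V`; then the prime `p_i` can be
replaced at all these places by any other prime.  We prove that the other coordinates take only
`O_n (1)` values, uniformly in `V` and `τ`: the functions which map `i` to `p_i` if `i` is not free,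
and to `none` otherwise, take together at most `((n + 1) ((n + 1)^2 + 1)) ^ n` values.

Hence for a finite set `S` of primes the number of solutions `p ∈ S ^ n` is at most `K_n |S| ^ e (V)`,
where `e (V)` is the largest number of disjoint nonempty sets of indices whose indicator vectors
lie in `V`, and this exponent is optimal for every `V`.

For example every linear equation `∑ t_i log p_i = τ` with nonzero complex coefficients has at most
`K_n |S| ^ (n / 2)` solutions, and the sums `∑ t_i log p_i`, `p ∈ S ^ n`, take at least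
`|S| ^ n / K_(2 n)` different values, for ALL nonzero complex numbers `t_1, …, t_n`.  (For arbitrary
sets `A` of `N` real numbers and transcendental `t` the sum `A + t A` can be as small as
`exp (C (log N) ^ (1/2)) N`.)

The proof uses the hyperplane case of the linear subgroup theorem of Waldschmidt and Roy (starting
files `Pool.Agent.W254.HP`, in the form `few_points` of `Pool.Agent.TH910.LR`).
-/

set_option autoImplicit false

namespace Pool.Agent.Results.MP_d171e3_nt.AffineSubspaces

open Pool.Agent.Helper13K9.BL

/-- The vector `(log p_1, …, log p_n)`. -/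
noncomputable def logs {n : ℕ} (p : Fin n → ℕ) : Fin n → ℂ := fun i => ((Real.log (p i) : ℝ) : ℂ)

/-- The indicator vector of the set of all `j` with `p_j = p_i`. -/
noncomputable def sameAs {n : ℕ} (p : Fin n → ℕ) (i : Fin n) : Fin n → ℂ :=
  fun j => if p j = p i then 1 else 0

/-- The coordinates `p_i` of `p` for which the indicator vector of the set of all `j` with
`p_j = p_i` does not lie in `V`; the other coordinates are forgotten. -/
noncomputable def rigidPart {n : ℕ} (V : Submodule ℂ (Fin n → ℂ)) (p : Fin n → ℕ) :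
    Fin n → Option ℕ :=
  open Classical in fun i => if sameAs p i ∈ V then none else some (p i)

/-- `𝒥` consists of disjoint nonempty sets of indices whose indicator vectors lie in `V`. -/
def Admissible {n : ℕ} (V : Submodule ℂ (Fin n → ℂ)) (𝒥 : Finset (Finset (Fin n))) : Prop :=
  ((∀ J ∈ 𝒥, J.Nonempty) ∧ ∀ J ∈ 𝒥, ∀ J' ∈ 𝒥, J ≠ J' → Disjoint J J') ∧
    ∀ J ∈ 𝒥, (fun i => if i ∈ J then (1 : ℂ) else 0) ∈ V

/-- The largest number of disjoint nonempty sets of indices with indicator vectors in `V`. -/
noncomputable def exponent {n : ℕ} (V : Submodule ℂ (Fin n → ℂ)) : ℕ :=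
  open Classical in (Finset.univ.filter (Admissible V)).sup Finset.card

/-- The constant. -/
def K (n : ℕ) : ℕ := 2 ^ (2 ^ n) * ((n + 1) * ((n + 1) ^ 2 + 1)) ^ n

/-- **Main result.** -/
theorem result (n : ℕ) :
    -- the rigid parts of the points of an affine subspace
    (∀ (V : Submodule ℂ (Fin n → ℂ)) (τ : Fin n → ℂ),
      (rigidPart V '' {p : Fin n → ℕ | (∀ i, (p i).Prime) ∧ logs p - τ ∈ V}).Finite ∧
      (rigidPart V '' {p : Fin n → ℕ | (∀ i, (p i).Prime) ∧ logs p - τ ∈ V}).ncard ≤
        ((n + 1) * ((n + 1) ^ 2 + 1)) ^ n) ∧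
    -- the number of points with coordinates in a given set of primes
    (∀ (V : Submodule ℂ (Fin n → ℂ)) (τ : Fin n → ℂ) (S : Finset ℕ), S.Nonempty →
      (∀ p ∈ S, p.Prime) →
      {p : Fin n → ℕ | (∀ i, p i ∈ S) ∧ logs p - τ ∈ V}.ncard ≤ K n * S.card ^ exponent V) ∧
    (∀ (V : Submodule ℂ (Fin n → ℂ)) (S : Finset ℕ), S.Nonempty → ∃ τ : Fin n → ℂ,
      S.card ^ exponent V ≤ {p : Fin n → ℕ | (∀ i, p i ∈ S) ∧ logs p - τ ∈ V}.ncard) ∧
    -- sums of dilates
    (∀ t : Fin n → ℂ, (∀ i, t i ≠ 0) → ∀ S : Finset ℕ, S.Nonempty → (∀ p ∈ S, p.Prime) →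
      S.card ^ n ≤ K (n + n) * {z : ℂ | ∃ p : Fin n → ℕ, (∀ i, p i ∈ S) ∧
        z = ∑ i, t i * ((Real.log (p i) : ℝ) : ℂ)}.ncard) :=
  ⟨fun V τ => fixed_card V τ, fun V τ S hS0 hS => space_card V τ S hS hS0,
    fun V S hS0 => space_sharp V S hS0, fun t ht S hS0 hS => dilates t ht S hS hS0⟩

end Pool.Agent.Results.MP_d171e3_nt.AffineSubspaces
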