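import Pool.Agent.Helper13K9.BL.Ex

/-!
# Multi-affine equations in logarithms of primes: the optimal exponent

Let `F` be a complex polynomial in `D + 1` groups of variables, `x_{j,1}, …, x_{j,n_j}` in the group
`j`, such that every monomial contains at most one variable of each group (with exponent one).  Let
`T (i_0, …, i_D)` be the coefficients of the monomials which contain a variable of every group.  An
admissible system consists, for every group `j`, of a set `𝒥_j` of disjoint nonempty subsets of
`{1, …, n_j}` such that the sum of `T` over `J_0 × … × J_D` vanishes whenever `J_j ∈ 𝒥_j` for all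
`j`.  Let `e (T)` be the largest value of `|𝒥_0| + … + |𝒥_D|`.

For every finite set `S` of primes and every function `f` of all groups but the first one, the
equation `F (log p) = f` has at most `K |S| ^ e (T)` solutions with all `p_{j,i} ∈ S`.  The constant
`K` depends only on the numbers `n_j`.  The exponent is optimal: for all `T` and `S` there is `F` with
top coefficients `T` such that `F (log p) = 0` has at least `|S| ^ e (T)` solutions.

Examples: for one group (linear equations `∑ t_i log p_i = τ`) the exponent is the maximal number of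
disjoint nonempty sets `J` of indices with `∑_{i ∈ J} t_i = 0`.  If no sum of `T` over a box
vanishes, for example if all `T` are positive, then `e (T) ≤ ∑ n_j - min n_j`.  If the top part of
`F` is a sum `∑_i c_i ∏_j x_{j,i}`, where `c_i ≠ 0` for `r` of the `m` indices, and if there are
at least two groups, then `e (T) ≤ (D + 1) m - r`.

The proof (`Helper13K9.BL.Blk`, `Mul`): the hyperplane case of the linear subgroup theorem of
Waldschmidt and Roy (starting files `Pool.Agent.W254.HP`, in the form `few_points` of
`Pool.Agent.TH910.LR`) shows that, for fixed primes in the other groups, the primes of a group of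
variables are determined up to `O(1)` possibilities on all blocks of equal primes for which the
sum of the coefficients does not vanish; the other blocks are free, and each of them gives an
equation of the same kind for the remaining groups.  Induction on the number of groups, for systems.
-/

set_option autoImplicit false

namespace Pool.Agent.Results.MP_d171e3_nt.MultiaffineEquations

open Pool.Agent.Helper13K9.BL

/-- The vector `(1, log p_1, …, log p_n)`. -/
noncomputable def logVec {n : ℕ} (p : Fin n → ℕ) : Fin (n + 1) → ℂ :=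
  Fin.cons 1 fun i => ((Real.log (p i) : ℝ) : ℂ)

/-- The value at the logarithms of the numbers `p j i` of the polynomial all of whose monomials
contain at most one variable of each group.  The coefficient of the monomial which contains the
variables `x_{j, i_j}` with `i_j ≠ 0` is `a i`. -/
noncomputable def value {D : ℕ} {n : Fin D → ℕ} (a : ((j : Fin D) → Fin (n j + 1)) → ℂ)
    (p : (j : Fin D) → Fin (n j) → ℕ) : ℂ := ∑ i, a i * ∏ j, logVec (p j) (i j)

/-- The coefficients of the monomials which contain a variable of each group. -/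
def top {D : ℕ} {n : Fin D → ℕ} (a : ((j : Fin D) → Fin (n j + 1)) → ℂ) :
    ((j : Fin D) → Fin (n j)) → ℂ := fun i => a fun j => (i j).succ

/-- Every `𝒥 j` is a set of disjoint nonempty sets of indices of the group `j`, and the sum of the
coefficients over `J_0 × J_1 × …` vanishes whenever `J_j` belongs to `𝒥 j` for all `j`. -/
def Admissible {D : ℕ} {n : Fin D → ℕ} (T : ((j : Fin D) → Fin (n j)) → ℂ)
    (𝒥 : (j : Fin D) → Finset (Finset (Fin (n j)))) : Prop :=
  (∀ j, (∀ J ∈ 𝒥 j, J.Nonempty) ∧ ∀ J ∈ 𝒥 j, ∀ J' ∈ 𝒥 j, J ≠ J' → Disjoint J J') ∧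
  ∀ J : (j : Fin D) → Finset (Fin (n j)), (∀ j, J j ∈ 𝒥 j) → ∑ i ∈ Fintype.piFinset J, T i = 0

/-- The largest number of sets in an admissible system. -/
noncomputable def exponent {D : ℕ} {n : Fin D → ℕ} (T : ((j : Fin D) → Fin (n j)) → ℂ) : ℕ :=
  open Classical in (Finset.univ.filter (Admissible T)).sup fun 𝒥 => ∑ j, (𝒥 j).card

/-- The constant. -/
def K {D : ℕ} (n : Fin D → ℕ) : ℕ :=
  ∏ j, 2 ^ (2 ^ n j) * ((n j + 1) * ((n j + 1) ^ 2 + 1)) ^ n j

/-- **Main result.** -/
theorem result (D : ℕ) :
    -- the upper bound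
    (∀ (n : Fin (D + 1) → ℕ) (a : ((j : Fin (D + 1)) → Fin (n j + 1)) → ℂ)
      (f : ((j : Fin D) → Fin (n j.succ) → ℕ) → ℂ) (S : Finset ℕ), S.Nonempty →
      (∀ p ∈ S, p.Prime) →
      {p : (j : Fin (D + 1)) → Fin (n j) → ℕ | (∀ j i, p j i ∈ S) ∧
        value a p = f fun j => p j.succ}.ncard ≤ K n * S.card ^ exponent (top a)) ∧
    -- the exponent is optimal
    (∀ (n : Fin (D + 1) → ℕ) (T : ((j : Fin (D + 1)) → Fin (n j)) → ℂ) (S : Finset ℕ),
      S.Nonempty → ∃ a : ((j : Fin (D + 1)) → Fin (n j + 1)) → ℂ, top a = T ∧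
        S.card ^ exponent T ≤ {p : (j : Fin (D + 1)) → Fin (n j) → ℕ | (∀ j i, p j i ∈ S) ∧
          value a p = 0}.ncard) ∧
    -- the exponent if no sum over a box vanishes
    (∀ (n : Fin (D + 1) → ℕ) (T : ((j : Fin (D + 1)) → Fin (n j)) → ℂ),
      (∀ J : (j : Fin (D + 1)) → Finset (Fin (n j)), (∀ j, (J j).Nonempty) →
        ∑ i ∈ Fintype.piFinset J, T i ≠ 0) → ∃ j, exponent T + n j ≤ ∑ j, n j) ∧
    -- the exponent for sums of products
    (∀ (m : ℕ) (c : Fin m → ℂ) (T : (Fin (D + 2) → Fin m) → ℂ), (∀ i, T (fun _ => i) = c i) →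
      (∀ i, (∃ j j', i j ≠ i j') → T i = 0) →
      exponent (n := fun _ => m) T + {i | c i ≠ 0}.ncard ≤ (D + 2) * m) := by
  classical
  have hext : ∀ (D : ℕ) (n : Fin D → ℕ) (T : ((j : Fin D) → Fin (n j)) → ℂ),
      ∃ a : ((j : Fin D) → Fin (n j + 1)) → ℂ, top a = T := by
    intro D n T
    have hφ : Function.Injective
        (fun (i : (j : Fin D) → Fin (n j)) (j : Fin D) => (i j).succ) := by
      intro i i' h
      funext j
      exact Fin.succ_injective _ (congrFun h j)
    exact ⟨Function.extend (fun (i : (j : Fin D) → Fin (n j)) (j : Fin D) => (i j).succ) T 0,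
      funext fun i => hφ.extend_apply T 0 i⟩
  have hexp : ∀ (D : ℕ) (n : Fin D → ℕ) (a : ((j : Fin D) → Fin (n j + 1)) → ℂ),
      exponent (top a) = mexp a := fun _ _ _ => rfl
  refine ⟨?_, ?_, ?_, ?_⟩
  · intro n a f S hS0 hS
    exact multi_primes n a f S hS hS0
  · intro n T S hS0
    obtain ⟨a₀, rfl⟩ := hext (D + 1) n T
    obtain ⟨a, ha, hcard⟩ := multi_sharp n a₀ S hS0 (exists_mexp a₀)
    exact ⟨a, funext ha, hcard⟩
  · intro n T hT
    obtain ⟨a, rfl⟩ := hext (D + 1) n T
    exact mexp_nonzero a hT
  · intro m c T hT hT'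
    obtain ⟨a, rfl⟩ := hext (D + 2) (fun _ => m) T
    exact mexp_diag c a hT hT'

end Pool.Agent.Results.MP_d171e3_nt.MultiaffineEquations
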