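import Pool.Agent.Helper13K9.BL.Poly

/-!
# Polynomials at logarithms of products: functions of fewer groups of variables

Let `S` be a nonempty finite set of positive integers all of whose elements have exponents at most
`h` in their prime factorisations (`h = 1` for sets of primes and of squarefree numbers,
`h = ⌊log₂ X⌋` for the integers up to `X`).  We consider arrays `x_{j,i}`, `j ≤ D`, `i ≤ n`, of
elements of `S`, where `D ≥ 2`, and complex numbers `c_1, …, c_n`, `r` of which are not zero.

* If `f_1, …, f_D` are ARBITRARY functions of such arrays and `f_j` is independent of the `j`-th row,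
  then the number `N` of the arrays with `∑_i c_i ∏_j log x_{j,i} = ∑_j f_j (x)` satisfies
  `N ^ (2^(D-1)) ≤ K |S| ^ (n D 2^(D-1) - r)`; so the proportion of these arrays is at most
  `K' |S| ^ (-r / 2^(D-1))`.
* The same bound holds for the number of the arrays for which the product columns
  `y_i = x_{1,i} ⋯ x_{D,i}` satisfy `∑ c_i (log y_i)^D + Q (log y_1, …, log y_n) = 0`, where `Q` is
  an arbitrary complex polynomial of degree less than `D`.
* For `D = 2` there are such bounds for all bilinear and quadratic forms: for every complex `m × n`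
  matrix `C` at most `K' |S| ^ (m + n - rank C / 2)` pairs `(x, y)` satisfy
  `∑ C_ij log x_i log y_j = f (x) + g (y)`, where `f` and `g` are arbitrary functions; and for every
  complex polynomial of degree two in `n` variables whose quadratic part has rank `r`, at most
  `K' |S| ^ (2 n - r / 2)` pairs `(x, y)` are such that it vanishes at `log (x_1 y_1), …, log (x_n y_n)`.

The constants depend only on `h`, `D`, `m` and `n`.  A fixed nonzero polynomial of degree `D` has at
most `D |S| ^ (n D - 1)` zeros of this kind for trivial reasons; the bounds here are better as soon as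
`r > 2^(D-1)`, and the saving grows with `r`.

Proof: for two rows and one arbitrary function the bound is `K |S| ^ (m + n - rank C)` (`BL.Bil`, the
hyperplane case of the linear subgroup theorem of Waldschmidt and Roy, starting files
`Pool.Agent.W254.HP` and `Pool.Agent.TH910.LR`); the inequality of Cauchy and Schwarz, `D - 1` times.
-/

set_option autoImplicit false

namespace Pool.Agent.Results.MP_d171e3_nt.PolynomialsAtProducts

open Pool.Agent.Helper13K9.BL

/-- The logarithm of a positive integer as a complex number. -/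
noncomputable def L (a : ℕ) : ℂ := ((Real.log a : ℝ) : ℂ)

/-- `S` is a nonempty set of positive integers and all exponents in the prime factorisations of its
elements are at most `h`. -/
def Good (h : ℕ) (S : Finset ℕ) : Prop :=
  S.Nonempty ∧ ∀ a ∈ S, a ≠ 0 ∧ ∀ p : ℕ, a.factorization p ≤ h

/-- The constant. -/
def K (h m n : ℕ) : ℕ := (h + 2) ^ (m ^ 3 + n ^ 3 + 2 * n ^ 2)

/-- **Main result.** -/
theorem result :
    -- sets of primes, and the integers up to `X`
    (∀ S : Finset ℕ, S.Nonempty → (∀ p ∈ S, p.Prime) → Good 1 S) ∧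
    (∀ X : ℕ, 1 ≤ X → Good (Nat.log 2 X) (Finset.Icc 1 X)) ∧
    (∀ (h : ℕ) (S : Finset ℕ), Good h S →
      -- `d + 2` arbitrary functions, each of which is independent of one row
      (∀ (d n : ℕ) (c : Fin n → ℂ) (f : Fin (d + 2) → (Fin (d + 2) → Fin n → ℕ) → ℂ),
        (∀ j x x', (∀ j', j' ≠ j → x j' = x' j') → f j x = f j x') →
        {x : Fin (d + 2) → Fin n → ℕ | (∀ j i, x j i ∈ S) ∧
          ∑ i, c i * ∏ j, L (x j i) = ∑ j, f j x}.ncard ^ (2 ^ (d + 1)) *
            S.card ^ {i | c i ≠ 0}.ncard ≤
          K h (2 * n) n * 2 ^ (n * d) * S.card ^ (n * (d + 2) * 2 ^ (d + 1))) ∧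
      -- polynomials with diagonal leading form at products of `d + 2` elements
      (∀ (d n : ℕ) (c : Fin n → ℂ) (Q : MvPolynomial (Fin n) ℂ), Q.totalDegree < d + 2 →
        {x : Fin (d + 2) → Fin n → ℕ | (∀ j i, x j i ∈ S) ∧
          ∑ i, c i * L (∏ j, x j i) ^ (d + 2) +
            MvPolynomial.eval (fun i => L (∏ j, x j i)) Q = 0}.ncard ^ (2 ^ (d + 1)) *
            S.card ^ {i | c i ≠ 0}.ncard ≤
          K h (2 * n) n * 2 ^ (n * d) * S.card ^ (n * (d + 2) * 2 ^ (d + 1))) ∧
      -- two rows, an arbitrary bilinear form, and two arbitrary functions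
      (∀ (m n : ℕ) (C : Matrix (Fin m) (Fin n) ℂ) (f : (Fin m → ℕ) → ℂ) (g : (Fin n → ℕ) → ℂ),
        {r : (Fin m → ℕ) × (Fin n → ℕ) | (∀ i, r.1 i ∈ S) ∧ (∀ j, r.2 j ∈ S) ∧
          ∑ i, ∑ j, C i j * L (r.1 i) * L (r.2 j) = f r.1 + g r.2}.ncard ^ 2 * S.card ^ C.rank ≤
          K h (2 * m) n * S.card ^ (2 * m + 2 * n)) ∧
      -- arbitrary quadratic polynomials at products of two elements
      (∀ (n : ℕ) (A : Matrix (Fin n) (Fin n) ℂ) (b : Fin n → ℂ) (c : ℂ),
        {r : (Fin n → ℕ) × (Fin n → ℕ) | (∀ i, r.1 i ∈ S) ∧ (∀ j, r.2 j ∈ S) ∧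
          ∑ i, ∑ j, A i j * L (r.1 i * r.2 i) * L (r.1 j * r.2 j) +
            ∑ i, b i * L (r.1 i * r.2 i) + c = 0}.ncard ^ 2 *
            S.card ^ (A + A.transpose).rank ≤
          K h (2 * n) n * S.card ^ (4 * n))) := by
  have hsupp : ∀ {n : ℕ} (c : Fin n → ℂ), {i | c i ≠ 0}.ncard = (supp c).card := by
    classical
    intro n c
    rw [← Set.ncard_coe_finset]
    congr 1
    ext i
    simp [supp]
  refine ⟨fun S h0 hS => ⟨h0, expLe_primes hS⟩, fun X hX => ⟨⟨1, by simp; omega⟩, expLe_Icc X⟩,
    fun h S hS => ⟨?_, ?_, ?_, ?_⟩⟩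
  · intro d n c f hf
    rw [two_mul n, hsupp]
    exact multi_nat h S hS.2 hS.1 d c f hf
  · intro d n c Q hQ
    rw [two_mul n, hsupp]
    exact poly_nat h S hS.2 hS.1 d c Q hQ
  · intro m n C f g
    rw [two_mul m]
    have := two_nat h S hS.2 hS.1 C f g
    rw [two_mul m] at this
    exact this
  · intro n A b c
    rw [two_mul n]
    exact quad_nat h S hS.2 hS.1 A b c

end Pool.Agent.Results.MP_d171e3_nt.PolynomialsAtProducts
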